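import Pool.Agent.H45.SQ.Targets1

set_option linter.unusedSectionVars false
set_option linter.deprecated false

/-!
# SQ module BAS: orthonormal bases of the range of a projection
-/

namespace Pool.Agent.H37.SQ

open Finset
open scoped BigOperators ComplexConjugate
open Pool.Agent.H45.SQ

theorem bas : T_BAS := by
  intro G _ _ _ _ P D hP htr
  obtain ⟨hH, hPP⟩ := hP
  classical
  set N : ℝ := (Fintype.card G : ℝ) with hN
  have hNpos : 0 < N := by
    rw [hN]; exact_mod_cast Fintype.card_pos
  set T : EuclideanSpace ℂ G →ₗ[ℂ] EuclideanSpace ℂ G := Matrix.toEuclideanLin P with hT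
  have hTapp : ∀ x : EuclideanSpace ℂ G, ∀ y, (T x) y = P.mulVec (fun i => x i) y := by
    intro x y
    rw [hT]
    rfl
  have hTT : ∀ x, T (T x) = T x := by
    intro x
    ext y
    rw [hTapp]
    have h1 : (fun i => (T x) i) = P.mulVec (fun i => x i) := by
      funext i; exact hTapp x i
    rw [h1, Matrix.mulVec_mulVec, hPP, ← hTapp]
  have hproj : LinearMap.IsProj (LinearMap.range T) T := by
    constructor
    · intro x; exact ⟨x, rfl⟩
    · rintro x ⟨z, rfl⟩; exact hTT z
  have htrT : LinearMap.trace ℂ _ T = P.trace := by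
    rw [hT]
    rw [Matrix.toEuclideanLin_eq_toLin]
    exact Matrix.trace_toLin_eq P _
  have hfin : Module.finrank ℂ (LinearMap.range T) = D := by
    have := hproj.trace
    rw [htrT, htr] at this
    exact_mod_cast this.symm
  let b0 := stdOrthonormalBasis ℂ (LinearMap.range T)
  let b : OrthonormalBasis (Fin D) ℂ (LinearMap.range T) := b0.reindex (finCongr hfin)
  have hsymm : ∀ x z : EuclideanSpace ℂ G, inner ℂ (T x) z = inner ℂ x (T z) := by
    have := Matrix.isSymmetric_toEuclideanLin_iff.mpr hH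
    intro x z
    exact this x z
  have hTb : ∀ i, T (b i : EuclideanSpace ℂ G) = b i := fun i => hproj.map_id _ (b i).2
  have hexp : ∀ x, T x = ∑ i, (inner ℂ ((b i : EuclideanSpace ℂ G)) x) • (b i : EuclideanSpace ℂ G) := by
    intro x
    have h1 := b.sum_repr ⟨T x, x, rfl⟩
    have h2 := congrArg (fun z : LinearMap.range T => (z : EuclideanSpace ℂ G)) h1
    simp only [Submodule.coe_sum, Submodule.coe_smul] at h2
    rw [← h2]
    refine Finset.sum_congr rfl fun i _ => ?_
    congr 1
    rw [b.repr_apply_apply]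
    rw [Submodule.coe_inner]
    change inner ℂ ((b i : EuclideanSpace ℂ G)) (T x) = _
    rw [← hsymm, hTb]
  refine ⟨fun i y => ((Real.sqrt N : ℝ) : ℂ) * (b i : EuclideanSpace ℂ G) y, ?_, ?_, ?_⟩
  · intro i j
    have h1 : inner ℂ (b j) (b i) = if j = i then (1 : ℂ) else 0 :=
      orthonormal_iff_ite.mp b.orthonormal j i
    rw [Submodule.coe_inner, EuclideanSpace.inner_eq_star_dotProduct] at h1
    have h2 : (∑ y, (b i : EuclideanSpace ℂ G) y * conj ((b j : EuclideanSpace ℂ G) y))
        = if i = j then (1 : ℂ) else 0 := by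
      have h3 : (∑ y, (b i : EuclideanSpace ℂ G) y * conj ((b j : EuclideanSpace ℂ G) y))
        = if j = i then (1 : ℂ) else 0 := by
        rw [← h1]
        rfl
      rw [h3]
      by_cases h : i = j
      · simp [h]
      · simp [h, Ne.symm h]
    rw [Fintype.expect_eq_sum_div_card]
    have h4 : (∑ y, ((Real.sqrt N : ℝ) : ℂ) * (b i : EuclideanSpace ℂ G) y *
        conj (((Real.sqrt N : ℝ) : ℂ) * (b j : EuclideanSpace ℂ G) y)) =
        (N : ℂ) * ∑ y, (b i : EuclideanSpace ℂ G) y * conj ((b j : EuclideanSpace ℂ G) y) := by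
      rw [Finset.mul_sum]
      refine Finset.sum_congr rfl fun y _ => ?_
      rw [map_mul, Complex.conj_ofReal]
      have h5 : ((Real.sqrt N : ℝ) : ℂ) * ((Real.sqrt N : ℝ) : ℂ) = (N : ℂ) := by
        rw [← Complex.ofReal_mul, Real.mul_self_sqrt hNpos.le]
      rw [← h5]
      ring
    rw [h4, h2]
    have h6 : (N : ℂ) ≠ 0 := by exact_mod_cast hNpos.ne'
    have h7 : ((Fintype.card G : ℕ) : ℂ) = (N : ℂ) := by rw [hN]; push_cast; rfl
    rw [h7]
    by_cases h : i = j
    · simp [h, h6]
    · simp [h]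
  · intro i
    have h2 : (fun y => ((Real.sqrt N : ℝ) : ℂ) * (b i : EuclideanSpace ℂ G) y) =
      ((Real.sqrt N : ℝ) : ℂ) • (fun y => (b i : EuclideanSpace ℂ G) y) := by
      funext y; rfl
    change P.mulVec (fun y => ((Real.sqrt N : ℝ) : ℂ) * (b i : EuclideanSpace ℂ G) y) =
      (fun y => ((Real.sqrt N : ℝ) : ℂ) * (b i : EuclideanSpace ℂ G) y)
    rw [h2, Matrix.mulVec_smul]
    congr 1
    funext y
    have h1 := congrArg (fun z : EuclideanSpace ℂ G => z y) (hTb i)
    simp only at h1
    rw [hTapp] at h1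
    exact h1
  · intro y y'
    have h1 := congrArg (fun z : EuclideanSpace ℂ G => z y) (hexp (EuclideanSpace.single y' 1))
    simp only at h1
    rw [hTapp] at h1
    have h2 : (fun i => (EuclideanSpace.single y' (1 : ℂ) : EuclideanSpace ℂ G) i) = Pi.single y' (1 : ℂ) := by
      funext i
      simp [Pi.single_apply]
    rw [h2, Matrix.mulVec_single_one] at h1
    change P y y' = _ at h1
    rw [h1]
    have h3 : ((Fintype.card G : ℕ) : ℂ) = (N : ℂ) := by rw [hN]; push_cast; rfl
    have h6 : (N : ℂ) ≠ 0 := by exact_mod_cast hNpos.ne'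
    rw [h3]
    have h4 : (∑ i, ((Real.sqrt N : ℝ) : ℂ) * (b i : EuclideanSpace ℂ G) y *
        conj (((Real.sqrt N : ℝ) : ℂ) * (b i : EuclideanSpace ℂ G) y')) =
        (N : ℂ) * ∑ i, (b i : EuclideanSpace ℂ G) y * conj ((b i : EuclideanSpace ℂ G) y') := by
      rw [Finset.mul_sum]
      refine Finset.sum_congr rfl fun i _ => ?_
      rw [map_mul, Complex.conj_ofReal]
      have h5 : ((Real.sqrt N : ℝ) : ℂ) * ((Real.sqrt N : ℝ) : ℂ) = (N : ℂ) := by
        rw [← Complex.ofReal_mul, Real.mul_self_sqrt hNpos.le]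
      rw [← h5]
      ring
    rw [h4, ← mul_assoc, inv_mul_cancel₀ h6, one_mul]
    have h7 : ∀ i, ((inner ℂ ((b i : EuclideanSpace ℂ G)) (EuclideanSpace.single y' (1:ℂ)) • (b i : EuclideanSpace ℂ G)) : EuclideanSpace ℂ G) y
       = (b i : EuclideanSpace ℂ G) y * conj ((b i : EuclideanSpace ℂ G) y') := by
      intro i
      rw [EuclideanSpace.inner_single_right]
      simp [mul_comm]
    rw [← Finset.sum_congr rfl fun i _ => h7 i]
    simp

end Pool.Agent.H37.SQ
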