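import Pool.Agent.H45.SQ.Targets1

/-!
# SQ module LA: the linear algebra lemma
-/

namespace Pool.Agent.H37.SQ

open Finset
open scoped BigOperators ComplexConjugate
open Pool.Agent.H45.SQ

/-- Hermitian product on `ℂ^n`. -/
noncomputable def ip {n : ℕ} (a b : Fin n → ℂ) : ℂ := ∑ k, a k * conj (b k)

theorem ip_add_left {n : ℕ} (a a' b : Fin n → ℂ) : ip (a + a') b = ip a b + ip a' b := by
  unfold ip
  rw [← Finset.sum_add_distrib]
  exact Finset.sum_congr rfl fun k _ => by simp [add_mul]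

theorem ip_smul_left {n : ℕ} (c : ℂ) (a b : Fin n → ℂ) : ip (c • a) b = c * ip a b := by
  unfold ip
  rw [Finset.mul_sum]
  exact Finset.sum_congr rfl fun k _ => by simp [mul_assoc]

theorem ip_conj {n : ℕ} (a b : Fin n → ℂ) : conj (ip a b) = ip b a := by
  unfold ip
  rw [map_sum]
  exact Finset.sum_congr rfl fun k _ => by simp [mul_comm]

theorem ip_add_right {n : ℕ} (a b b' : Fin n → ℂ) : ip a (b + b') = ip a b + ip a b' := by
  rw [← ip_conj (b + b') a, ip_add_left, map_add, ip_conj, ip_conj]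

theorem ip_smul_right {n : ℕ} (c : ℂ) (a b : Fin n → ℂ) : ip a (c • b) = conj c * ip a b := by
  rw [← ip_conj (c • b) a, ip_smul_left, map_mul, ip_conj]

theorem ip_self {n : ℕ} (a : Fin n → ℂ) : ip a a = ((∑ k, ‖a k‖ ^ 2 : ℝ) : ℂ) := by
  unfold ip
  push_cast
  exact Finset.sum_congr rfl fun k _ => by rw [Complex.mul_conj, Complex.normSq_eq_norm_sq]; push_cast; rfl

/-- Squared norm. -/
noncomputable def nq {n : ℕ} (a : Fin n → ℂ) : ℝ := ∑ k, ‖a k‖ ^ 2

theorem nq_eq {n : ℕ} (a : Fin n → ℂ) : nq a = (ip a a).re := by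
  rw [ip_self]; rfl

/-- Polarisation: a spread bound for the four vectors `(a ± ω b)/√2` bounds `ip a b`. -/
theorem polar {n : ℕ} (a b : Fin n → ℂ) (ξ : ℝ)
    (h : ∀ α β α' β' : ℂ, ‖α‖ ^ 2 + ‖β‖ ^ 2 = 1 → ‖α'‖ ^ 2 + ‖β'‖ ^ 2 = 1 →
      nq (α • a + β • b) - nq (α' • a + β' • b) < ξ) : ‖ip a b‖ ≤ ξ := by
  have hs : ((Real.sqrt 2)⁻¹) ^ 2 = 1 / 2 := by
    rw [inv_pow, Real.sq_sqrt (by norm_num)]; norm_num
  set r : ℝ := (Real.sqrt 2)⁻¹ with hr
  have hr0 : 0 ≤ r := by rw [hr]; positivity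
  have gen : ∀ ω : ℂ, ‖ω‖ = 1 → 2 * (conj ω * ip a b).re < ξ := by
    intro ω hω
    have h1 := h (r : ℂ) (r * ω) (r : ℂ) (-(r * ω)) ?_ ?_
    · have e : nq ((r : ℂ) • a + (r * ω) • b) - nq ((r : ℂ) • a + (-(r * ω)) • b) =
          2 * (conj ω * ip a b).re := by
        rw [nq_eq, nq_eq]
        simp only [ip_add_left, ip_add_right, ip_smul_left, ip_smul_right, map_mul, map_neg,
          Complex.conj_ofReal]
        have e2 : ip b a = conj (ip a b) := (ip_conj a b).symm
        rw [e2, ← Complex.sub_re]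
        have e3 : (r : ℂ) * (r : ℂ) = 1 / 2 := by
          rw [← Complex.ofReal_mul, ← pow_two, hs]; norm_num
        refine Eq.trans (congrArg Complex.re (a₂ := conj ω * ip a b + conj (conj ω * ip a b)) ?_) ?_
        · rw [map_mul, Complex.conj_conj]
          linear_combination (2 * (ω * conj (ip a b)) + 2 * (conj ω * ip a b)) * e3
        · rw [Complex.add_re, Complex.conj_re]
          ring
      linarith
    · rw [norm_mul, hω, mul_one, Complex.norm_real, Real.norm_of_nonneg hr0, hs]; norm_num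
    · rw [norm_neg, norm_mul, hω, mul_one, Complex.norm_real, Real.norm_of_nonneg hr0, hs]; norm_num
  have g1 := gen 1 (by simp)
  have g2 := gen (-1) (by simp)
  have g3 := gen Complex.I (by simp)
  have g4 := gen (-Complex.I) (by simp)
  simp only [map_one, one_mul, map_neg, Complex.conj_I, neg_mul, Complex.neg_re, neg_neg,
    Complex.mul_re, Complex.I_re, Complex.I_im, zero_mul] at g1 g2 g3 g4
  refine (Complex.norm_le_abs_re_add_abs_im _).trans ?_
  have k1 : |(ip a b).re| ≤ ξ / 2 := by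
    rw [abs_le]; constructor <;> linarith
  have k2 : |(ip a b).im| ≤ ξ / 2 := by
    rw [abs_le]; constructor <;> linarith
  linarith

/-- Diagonally dominant Gram matrices force the dimension to be large. -/
theorem dominance {ι : Type} [Fintype ι] {n : ℕ} (m : ι → Fin n → ℂ) (δ η : ℝ)
    (hn : n < Fintype.card ι) (hoff : ∀ i j, i ≠ j → ‖ip (m i) (m j)‖ ≤ δ)
    (hdiag : ∀ i, η ≤ nq (m i)) (hδ : 0 ≤ δ) (hlt : (Fintype.card ι : ℝ) * δ < η) : False := by
  classical
  have hdep : ¬ LinearIndependent ℂ m := by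
    intro hli
    have := hli.fintype_card_le_finrank
    rw [Module.finrank_fin_fun] at this
    omega
  rw [Fintype.not_linearIndependent_iff] at hdep
  obtain ⟨g, hg, i1, hi1⟩ := hdep
  obtain ⟨i0, -, hi0⟩ := Finset.exists_max_image Finset.univ (fun i => ‖g i‖) ⟨i1, Finset.mem_univ _⟩
  have hpos : 0 < ‖g i0‖ := lt_of_lt_of_le (norm_pos_iff.mpr hi1) (hi0 i1 (Finset.mem_univ _))
  have hzero : ∑ i, g i * ip (m i) (m i0) = 0 := by
    have h1 : ip (∑ i, g i • m i) (m i0) = ∑ i, g i * ip (m i) (m i0) := by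
      unfold ip
      simp only [Finset.sum_apply, Pi.smul_apply, smul_eq_mul, Finset.sum_mul, Finset.mul_sum]
      rw [Finset.sum_comm]
      exact Finset.sum_congr rfl fun i _ => Finset.sum_congr rfl fun k _ => by ring
    rw [← h1, hg]
    unfold ip
    simp
  rw [← Finset.add_sum_erase _ _ (Finset.mem_univ i0)] at hzero
  have h2 : g i0 * ip (m i0) (m i0) = -∑ i ∈ Finset.univ.erase i0, g i * ip (m i) (m i0) := by
    linear_combination hzero
  have h3 : ‖g i0‖ * nq (m i0) ≤ ‖g i0‖ * ((Fintype.card ι : ℝ) * δ) := by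
    have h4 : ‖g i0 * ip (m i0) (m i0)‖ = ‖g i0‖ * nq (m i0) := by
      rw [norm_mul, ip_self, Complex.norm_real, Real.norm_of_nonneg]
      · rfl
      · exact Finset.sum_nonneg fun k _ => by positivity
    rw [← h4, h2, norm_neg]
    refine (norm_sum_le _ _).trans ?_
    calc ∑ i ∈ Finset.univ.erase i0, ‖g i * ip (m i) (m i0)‖
        ≤ ∑ i ∈ Finset.univ.erase i0, ‖g i0‖ * δ := by
          refine Finset.sum_le_sum fun i hi => ?_
          rw [norm_mul]
          exact mul_le_mul (hi0 i (Finset.mem_univ _)) (hoff i i0 (Finset.ne_of_mem_erase hi))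
            (norm_nonneg _) (norm_nonneg _)
      _ ≤ ∑ i : ι, ‖g i0‖ * δ :=
          Finset.sum_le_sum_of_subset_of_nonneg (Finset.erase_subset _ _)
            (fun _ _ _ => by positivity)
      _ = _ := by
          rw [Finset.sum_const, Finset.card_univ, nsmul_eq_mul]; ring
  have h5 := le_of_mul_le_mul_left h3 hpos
  have h6 := hdiag i0
  linarith

/-- A vector with two prescribed coordinates. -/
noncomputable def two {n : ℕ} (i i' : Fin n) (α β : ℂ) (k : Fin n) : ℂ :=
  if k = i then α else if k = i' then β else 0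

theorem two_norm {n : ℕ} {i i' : Fin n} (h : i ≠ i') (α β : ℂ) :
    ∑ k, ‖two i i' α β k‖ ^ 2 = ‖α‖ ^ 2 + ‖β‖ ^ 2 := by
  rw [Fintype.sum_eq_add i i' h]
  · simp [two, h.symm]
  · rintro x ⟨h1, h2⟩
    simp [two, h1, h2]

theorem two_sum {n p : ℕ} {i i' : Fin n} (h : i ≠ i') (α β : ℂ) (F : Fin n → Fin p → ℂ) :
    ∑ k, two i i' α β k • F k = α • F i + β • F i' := by
  rw [Fintype.sum_eq_add i i' h]
  · simp [two, h.symm]
  · rintro x ⟨h1, h2⟩
    simp [two, h1, h2]

theorem one_norm {n : ℕ} (i : Fin n) : ∑ k, ‖two i i 1 0 k‖ ^ 2 = 1 := by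
  rw [Fintype.sum_eq_single i]
  · simp [two]
  · intro x h
    simp [two, h]

theorem one_sum {n p : ℕ} (i : Fin n) (F : Fin n → Fin p → ℂ) :
    ∑ k, two i i 1 0 k • F k = F i := by
  rw [Fintype.sum_eq_single i]
  · simp [two]
  · intro x h
    simp [two, h]

theorem xs0 {n p : ℕ} {m : Fin n → Fin p → ℂ} (j l : Fin n) :
    ∑ k, xs n (j, l, 0) k • m k = m j := by
  rw [Fintype.sum_eq_single j]
  · simp [xs]
  · intro x h
    simp [xs, h]

theorem xs1 {n p : ℕ} {m : Fin n → Fin p → ℂ} (j l : Fin n) :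
    ∑ k, xs n (j, l, 1) k • m k = (1 / 2 : ℂ) • (m j + m l) := by
  have h : ∀ k, xs n (j, l, 1) k • m k =
      (if k = j then (1 / 2 : ℂ) • m k else 0) + (if k = l then (1 / 2 : ℂ) • m k else 0) := by
    intro k
    have e : xs n (j, l, 1) k = (if k = j then (1 / 2 : ℂ) else 0) + (if k = l then (1 / 2 : ℂ) else 0) := by
      unfold xs
      simp only [Fin.reduceEq, if_false, if_true]
      split_ifs <;> norm_num
    rw [e, add_smul]
    split_ifs <;> simp
  rw [Finset.sum_congr rfl fun k _ => h k, Finset.sum_add_distrib]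
  simp

theorem xs2 {n p : ℕ} {m : Fin n → Fin p → ℂ} (j l : Fin n) :
    ∑ k, xs n (j, l, 2) k • m k = (1 / 2 : ℂ) • (m j + Complex.I • m l) := by
  have h : ∀ k, xs n (j, l, 2) k • m k =
      (if k = j then (1 / 2 : ℂ) • m k else 0) +
        (if k = l then (1 / 2 : ℂ) • Complex.I • m k else 0) := by
    intro k
    have e : xs n (j, l, 2) k = (if k = j then (1 / 2 : ℂ) else 0) +
        (if k = l then (1 / 2 : ℂ) * Complex.I else 0) := by
      unfold xs
      simp only [Fin.reduceEq, if_false]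
      split_ifs <;> ring
    rw [e, add_smul]
    split_ifs <;> simp [mul_smul]
  rw [Finset.sum_congr rfl fun k _ => h k, Finset.sum_add_distrib]
  simp

theorem la : T_LA := by
  intro D D' D'' θ hθ hDD
  have hDpos : (0 : ℝ) < (D : ℝ) * D' := by
    have : 0 < D * D' := by omega
    exact_mod_cast this
  have hD1 : (1 : ℝ) ≤ (D : ℝ) * D' := by
    have : 1 ≤ D * D' := by omega
    exact_mod_cast this
  set M : ℝ := (D : ℝ) * D' with hM
  refine ⟨θ / (64 * M ^ 2), by positivity, ?_⟩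
  set ξ : ℝ := θ / (64 * M ^ 2) with hξ
  have hξ0 : 0 < ξ := by rw [hξ]; positivity
  intro τ hτ
  by_contra hcon
  rw [not_or] at hcon
  obtain ⟨hA, hB⟩ := hcon
  push Not at hA hB
  -- the bilinear map
  set m : Fin D → Fin D' → Fin D'' → ℂ := τ with hm
  have hA' : ∀ ι, ∀ v v' : Fin D → ℂ, ∑ i, ‖v i‖ ^ 2 = 1 → ∑ i, ‖v' i‖ ^ 2 = 1 →
      nq (∑ i, v i • ∑ j, xs D' ι j • m i j) - nq (∑ i, v' i • ∑ j, xs D' ι j • m i j) < ξ := by
    intro ι v v' hv hv'
    have := hA ι v v' hv hv'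
    unfold nq
    simp only [Finset.sum_apply, Pi.smul_apply, smul_eq_mul, Finset.mul_sum]
    simpa only [mul_assoc] using this
  have hB' : ∀ ι, ∀ x x' : Fin D' → ℂ, ∑ i, ‖x i‖ ^ 2 = 1 → ∑ i, ‖x' i‖ ^ 2 = 1 →
      nq (∑ j, x j • ∑ i, xs D ι i • m i j) - nq (∑ j, x' j • ∑ i, xs D ι i • m i j) < ξ := by
    intro ι v v' hv hv'
    have := hB ι v v' hv hv'
    have e : ∀ (w : Fin D' → ℂ), nq (∑ j, w j • ∑ i, xs D ι i • m i j) =
        ∑ k, ‖∑ i, ∑ j, xs D ι i * w j * m i j k‖ ^ 2 := by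
      intro w
      unfold nq
      refine Finset.sum_congr rfl fun k _ => ?_
      simp only [Finset.sum_apply, Pi.smul_apply, smul_eq_mul, Finset.mul_sum]
      rw [Finset.sum_comm]
      congr 2
      exact Finset.sum_congr rfl fun i _ => Finset.sum_congr rfl fun j _ => by ring
    rw [e, e]
    exact this
  -- pairs of coordinates
  have hpairA : ∀ ι (i i' : Fin D), i ≠ i' →
      ‖ip (∑ j, xs D' ι j • m i j) (∑ j, xs D' ι j • m i' j)‖ ≤ ξ := by
    intro ι i i' hii
    refine polar _ _ ξ ?_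
    intro α β α' β' h1 h2
    have h := hA' ι (two i i' α β) (two i i' α' β') (by rw [two_norm hii, h1])
      (by rw [two_norm hii, h2])
    rw [two_sum hii, two_sum hii] at h
    exact h
  have hpairB : ∀ ι (i i' : Fin D'), i ≠ i' →
      ‖ip (∑ j, xs D ι j • m j i) (∑ j, xs D ι j • m j i')‖ ≤ ξ := by
    intro ι i i' hii
    refine polar _ _ ξ ?_
    intro α β α' β' h1 h2
    have h := hB' ι (two i i' α β) (two i i' α' β') (by rw [two_norm hii, h1])
      (by rw [two_norm hii, h2])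
    rw [two_sum hii, two_sum hii] at h
    exact h
  -- values at the anchors
  have hdA : ∀ (i i' : Fin D) (j : Fin D'), nq (m i j) - nq (m i' j) < ξ := by
    intro i i' j
    have h := hA' (j, j, 0) (two i i 1 0) (two i' i' 1 0) (one_norm i) (one_norm i')
    rw [one_sum, one_sum] at h
    rw [xs0, xs0] at h
    exact h
  have hdB : ∀ (i : Fin D) (j j' : Fin D'), nq (m i j) - nq (m i j') < ξ := by
    intro i j j'
    have h := hB' (i, i, 0) (two j j 1 0) (two j' j' 1 0) (one_norm j) (one_norm j')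
    rw [one_sum, one_sum] at h
    rw [xs0 (m := fun i => m i j), xs0 (m := fun i => m i j')] at h
    exact h
  have hoff : ∀ (i i' : Fin D) (j l : Fin D'), i ≠ i' → ‖ip (m i j) (m i' l)‖ ≤ 6 * ξ := by
    intro i i' j l hii
    have c0 := hpairA (j, l, 0) i i' hii
    have c0' := hpairA (l, l, 0) i i' hii
    have c1 := hpairA (j, l, 1) i i' hii
    have c2 := hpairA (j, l, 2) i i' hii
    rw [xs0, xs0] at c0 c0'
    rw [xs1, xs1] at c1
    rw [xs2, xs2] at c2
    simp only [ip_add_left, ip_add_right, ip_smul_left, ip_smul_right] at c1 c2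
    set P := ip (m i j) (m i' j) with hP
    set Q := ip (m i l) (m i' l) with hQ
    set S := ip (m i j) (m i' l) with hS
    set T := ip (m i l) (m i' j) with hT
    have e1 : S = (1 / 2 : ℂ) * (4 * ((1 / 4 : ℂ) * (P + S + (T + Q))) - P - Q) +
        (1 / 2 : ℂ) * (Complex.I * (4 * ((1 / 4 : ℂ) * (P - Complex.I * S + (Complex.I * T + Q))) - P - Q)) := by
      have hI : Complex.I * Complex.I = -1 := Complex.I_mul_I
      linear_combination (1 / 2 * (S - T)) * hI
    have hc : conj (1 / 2 : ℂ) = 1 / 2 := by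
      rw [show (1 / 2 : ℂ) = ((1 / 2 : ℝ) : ℂ) by push_cast; rfl, Complex.conj_ofReal]
    have c1' : ‖(1 / 4 : ℂ) * (P + S + (T + Q))‖ ≤ ξ := by
      refine le_trans (le_of_eq ?_) c1
      congr 1
      rw [hc]
      ring
    have c2' : ‖(1 / 4 : ℂ) * (P - Complex.I * S + (Complex.I * T + Q))‖ ≤ ξ := by
      refine le_trans (le_of_eq ?_) c2
      congr 1
      rw [hc, Complex.conj_I]
      linear_combination ((1 / 4 : ℂ) * Q) * Complex.I_mul_I
    rw [e1]
    have n4 : ‖(4 : ℂ)‖ = 4 := by norm_num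
    have n2 : ‖(1 / 2 : ℂ)‖ = 1 / 2 := by norm_num
    have b1 : ‖(4 : ℂ) * ((1 / 4 : ℂ) * (P + S + (T + Q))) - P - Q‖ ≤ 4 * ξ + ξ + ξ := by
      refine (norm_sub_le _ _).trans (add_le_add ((norm_sub_le _ _).trans (add_le_add ?_ c0)) c0')
      rw [norm_mul, n4]
      linarith
    have b2 : ‖(4 : ℂ) * ((1 / 4 : ℂ) * (P - Complex.I * S + (Complex.I * T + Q))) - P - Q‖ ≤ 4 * ξ + ξ + ξ := by
      refine (norm_sub_le _ _).trans (add_le_add ((norm_sub_le _ _).trans (add_le_add ?_ c0)) c0')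
      rw [norm_mul, n4]
      linarith
    refine (norm_add_le _ _).trans ?_
    rw [norm_mul, norm_mul, norm_mul, Complex.norm_I, n2]
    linarith
  have hoff2 : ∀ (i : Fin D) (j l : Fin D'), j ≠ l → ‖ip (m i j) (m i l)‖ ≤ 6 * ξ := by
    intro i j l hjl
    have h := hpairB (i, i, 0) j l hjl
    rw [xs0 (m := fun i => m i j), xs0 (m := fun i => m i l)] at h
    linarith
  -- conclusion
  have hall : ∀ (i i' : Fin D) (j j' : Fin D'), nq (m i j) ≤ nq (m i' j') + 2 * ξ := by
    intro i i' j j'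
    have h1 := hdA i i' j
    have h2 := hdB i' j j'
    linarith
  have hη : ∀ (i' : Fin D) (j' : Fin D'), θ / M - 2 * ξ ≤ nq (m i' j') := by
    intro i' j'
    have h1 : θ ≤ M * (nq (m i' j') + 2 * ξ) := by
      calc θ ≤ ∑ i, ∑ j, nq (m i j) := hτ
        _ ≤ ∑ i : Fin D, ∑ j : Fin D', (nq (m i' j') + 2 * ξ) :=
          Finset.sum_le_sum fun i _ => Finset.sum_le_sum fun j _ => hall i i' j j'
        _ = M * (nq (m i' j') + 2 * ξ) := by
          simp only [Finset.sum_const, Finset.card_univ, Fintype.card_fin, nsmul_eq_mul]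
          rw [hM]
          ring
    have h2 : θ / M ≤ nq (m i' j') + 2 * ξ := by
      rw [div_le_iff₀ hDpos]
      linarith
    linarith
  refine dominance (fun p : Fin D × Fin D' => m p.1 p.2) (6 * ξ) (θ / M - 2 * ξ) ?_ ?_
    (fun p => hη p.1 p.2) (by positivity) ?_
  · rw [Fintype.card_prod, Fintype.card_fin, Fintype.card_fin]
    exact hDD
  · rintro ⟨i, j⟩ ⟨i', l⟩ hne
    by_cases h : i = i'
    · subst h
      exact hoff2 i j l (fun h => hne (by rw [h]))
    · exact hoff i i' j l h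
  · rw [Fintype.card_prod, Fintype.card_fin, Fintype.card_fin]
    push_cast
    change M * (6 * ξ) < θ / M - 2 * ξ
    have h1 : θ = ξ * (64 * M ^ 2) := by
      rw [hξ, div_mul_cancel₀]
      positivity
    have h2 : θ / M = 64 * M * ξ := by
      rw [h1]
      field_simp
    rw [h2]
    nlinarith

end Pool.Agent.H37.SQ
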