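import Pool.Agent.H45.SQ.Targets1

set_option linter.unusedSectionVars false

/-!
# SQ module RHO: the basic family
-/

namespace Pool.Agent.H37.SQ

open Finset
open scoped BigOperators ComplexConjugate ComplexOrder
open Pool.Agent.H45.SQ

section
variable {G : Type} [AddCommGroup G] [Fintype G] [Module (ZMod 2) G]

theorem add_self' (x : G) : x + x = 0 := by
  have h : (2 : ZMod 2) • x = x + x := two_smul _ x
  rw [← h]
  have : (2 : ZMod 2) = 0 := by decide
  rw [this, zero_smul]

/-- The function `V_o(x,u)`. -/
noncomputable def V (f : G → G → ℂ) (o x u : G) : ℂ := f x u * conj (f (x + o) (u + o))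

theorem V_le (f : G → G → ℂ) (hf : ∀ x y, ‖f x y‖ ≤ 1) (o x u : G) : ‖V f o x u‖ ≤ 1 := by
  unfold V
  rw [norm_mul, RCLike.norm_conj]
  calc _ ≤ 1 * 1 := mul_le_mul (hf _ _) (hf _ _) (norm_nonneg _) zero_le_one
    _ = 1 := one_mul 1

theorem rho_eq (f : G → G → ℂ) (o u v : G) :
    rho f o u v = 𝔼 x, V f o x u * conj (V f o x v) := rfl

/-- Gram matrices of bounded functions. -/
theorem gram_psd [DecidableEq G] (m : G → G → ℂ) (hm : ∀ y z, ‖m y z‖ ≤ 1) (A : Matrix G G ℂ)
    (hA : ∀ y y', A y y' = ((Fintype.card G : ℂ))⁻¹ * 𝔼 z, m y z * conj (m y' z)) :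
    A.PosSemidef ∧ A.trace.re ≤ 1 := by
  have hN : (0 : ℝ) < (Fintype.card G : ℝ) := by exact_mod_cast Fintype.card_pos
  constructor
  · have h1 : A = (((Fintype.card G : ℝ)⁻¹ * (Fintype.card G : ℝ)⁻¹ : ℝ) : ℂ) •
        ((Matrix.of m) * (Matrix.of m).conjTranspose) := by
      ext y y'
      rw [hA, Matrix.smul_apply, Matrix.mul_apply, Fintype.expect_eq_sum_div_card]
      simp only [Matrix.conjTranspose_apply, Matrix.of_apply, smul_eq_mul, RCLike.star_def]
      push_cast
      rw [div_eq_mul_inv]
      ring
    rw [h1]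
    refine (Matrix.posSemidef_self_mul_conjTranspose _).smul ?_
    exact_mod_cast by positivity
  · rw [Matrix.trace]
    simp only [Matrix.diag_apply]
    rw [Complex.re_sum]
    have h2 : ∀ y, (A y y).re ≤ (Fintype.card G : ℝ)⁻¹ := by
      intro y
      rw [hA]
      refine (Complex.re_le_norm _).trans ?_
      rw [norm_mul, norm_inv, Complex.norm_natCast]
      have h3 : ‖𝔼 z, m y z * conj (m y z)‖ ≤ 1 := by
        rw [Fintype.expect_eq_sum_div_card, norm_div, Complex.norm_natCast, div_le_one hN]
        refine (norm_sum_le _ _).trans ?_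
        calc ∑ z, ‖m y z * conj (m y z)‖ ≤ ∑ z : G, (1 : ℝ) := by
              refine Finset.sum_le_sum fun z _ => ?_
              rw [norm_mul, RCLike.norm_conj]
              calc _ ≤ 1 * 1 := mul_le_mul (hm _ _) (hm _ _) (norm_nonneg _) zero_le_one
                _ = 1 := one_mul 1
          _ = _ := by simp
      calc _ ≤ (Fintype.card G : ℝ)⁻¹ * 1 := mul_le_mul_of_nonneg_left h3 (by positivity)
        _ = _ := mul_one _
    calc ∑ y, (A y y).re ≤ ∑ y : G, (Fintype.card G : ℝ)⁻¹ := Finset.sum_le_sum fun y _ => h2 y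
      _ = 1 := by
        simp only [Finset.sum_const, Finset.card_univ, nsmul_eq_mul]
        exact mul_inv_cancel₀ hN.ne'

end

theorem rhoT : T_RHO := by
  intro G _ _ _ _ f hf
  have key : ∀ s, (mat (rho f) s).PosSemidef ∧ (mat (rho f) s).trace.re ≤ 1 := by
    intro s
    refine gram_psd (fun y z => f (y + z) y * conj (f (y + z) (y + s))) ?_ _ ?_
    · intro y z
      rw [norm_mul, RCLike.norm_conj]
      calc _ ≤ 1 * 1 := mul_le_mul (hf _ _) (hf _ _) (norm_nonneg _) zero_le_one
        _ = 1 := one_mul 1
    · intro y y'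
      unfold mat
      congr 1
      rw [rho_eq]
      rw [← Fintype.expect_equiv (Equiv.addLeft y) (fun z => V f (y + y') (y + z) y * conj (V f (y + y') (y + z) (y + s))) (fun x => V f (y + y') x y * conj (V f (y + y') x (y + s)))
        (fun z => rfl)]
      refine Finset.expect_congr rfl fun z _ => ?_
      unfold V
      have e1 : y + z + (y + y') = y' + z := by
        calc y + z + (y + y') = (y + y) + (y' + z) := by abel
          _ = y' + z := by rw [add_self', zero_add]
      have e2 : y + (y + y') = y' := by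
        calc y + (y + y') = (y + y) + y' := by abel
          _ = y' := by rw [add_self', zero_add]
      have e3 : y + s + (y + y') = y' + s := by
        calc y + s + (y + y') = (y + y) + (y' + s) := by abel
          _ = y' + s := by rw [add_self', zero_add]
      rw [e1, e2, e3]
      simp only [map_mul, Complex.conj_conj]
      ring
  have key2 : ∀ o, (Matrix.of fun u v => ((Fintype.card G : ℂ))⁻¹ * rho f o u v).PosSemidef ∧
      (Matrix.of fun u v => ((Fintype.card G : ℂ))⁻¹ * rho f o u v).trace.re ≤ 1 := by
    intro o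
    refine gram_psd (fun u x => V f o x u) (fun u x => V_le f hf o x u) _ ?_
    intro u v
    rfl
  refine ⟨?_, ?_, fun s => (key s).1, fun s => (key s).2, fun o => (key2 o).1, fun o => (key2 o).2⟩
  · refine ⟨G, inferInstance, fun _ => ((Fintype.card G : ℂ))⁻¹, fun x o u => V f o x u,
      fun x o u => conj (V f o x u), fun x o u => V_le f hf o x u, ?_, ?_, ?_⟩
    · intro x o u
      rw [RCLike.norm_conj]
      exact V_le f hf o x u
    · simp only [norm_inv, Complex.norm_natCast, Finset.sum_const, Finset.card_univ, nsmul_eq_mul]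
      have hN : (0 : ℝ) < (Fintype.card G : ℝ) := by exact_mod_cast Fintype.card_pos
      rw [mul_inv_cancel₀ hN.ne']
    · intro o u v
      rw [rho_eq, Fintype.expect_eq_sum_div_card, div_eq_mul_inv, Finset.sum_mul]
      refine Finset.sum_congr rfl fun x _ => ?_
      ring
  · intro o u v
    rw [rho_eq, rho_eq, map_expect]
    rw [← Fintype.expect_equiv (Equiv.addRight o) (fun x => V f o (x + o) (u + o) * conj (V f o (x + o) (v + o))) (fun x => V f o x (u + o) * conj (V f o x (v + o)))
        (fun z => rfl)]
    refine Finset.expect_congr rfl fun x _ => ?_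
    unfold V
    have e1 : ∀ z : G, z + o + o = z := by
      intro z
      rw [add_assoc, add_self', add_zero]
    rw [e1, e1, e1]
    simp only [map_mul, Complex.conj_conj]
    ring

end Pool.Agent.H37.SQ
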